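import Mathlib

/-!
# The flow lemma for parent systems

A parent system: every index `i ≥ 3` has two distinct parents `p i, q i < i`; the indices `0,1,2`
form the base.  `s i j` is the minimal total length of two disjoint descending paths
from `i` and `j` to two distinct base indices (`i ≠ j`).
-/

set_option autoImplicit false

namespace Pool.Agent.Cyc27

structure Par where
  p : ℕ → ℕ
  q : ℕ → ℕ
  hp : ∀ i, 3 ≤ i → p i < i
  hq : ∀ i, 3 ≤ i → q i < i
  hpq : ∀ i, 3 ≤ i → p i ≠ q i

namespace Par

variable (P : Par)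

/-- one step of the recursion: the younger index `n` moves, the other one is `j`. -/
def F (T : ℕ → ℕ → ℕ) (n j : ℕ) : ℕ :=
  if n < 3 then 0 else
  1 + (if P.p n = j then T (P.q n) j else if P.q n = j then T (P.p n) j
       else min (T (P.p n) j) (T (P.q n) j))

/-- table of values for indices `< n`. -/
def T : ℕ → ℕ → ℕ → ℕ
  | 0 => fun _ _ => 0
  | (n+1) => fun i j =>
      if i = n then (if j = n then 0 else P.F (T n) n j)
      else if j = n then P.F (T n) n i else T n i j

def s (i j : ℕ) : ℕ := P.T (max i j + 1) i j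

theorem T_stable {n i j : ℕ} (hi : i < n) (hj : j < n) (m : ℕ) (hm : n ≤ m) :
    P.T m i j = P.T n i j := by
  induction m, hm using Nat.le_induction with
  | base => rfl
  | succ m hm ih =>
    have h1 : i ≠ m := by omega
    have h2 : j ≠ m := by omega
    simp only [T, h1, h2, if_false]
    exact ih

theorem T_eq_s {n i j : ℕ} (hi : i < n) (hj : j < n) : P.T n i j = P.s i j := by
  unfold s
  exact P.T_stable (by omega) (by omega) n (by omega)

theorem T_symm (n : ℕ) : ∀ i j, P.T n i j = P.T n j i := by
  induction n with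
  | zero => intro i j; rfl
  | succ n ih =>
    intro i j
    simp only [T]
    by_cases h1 : i = n <;> by_cases h2 : j = n <;> simp [h1, h2, ih i j]

theorem s_symm (i j : ℕ) : P.s i j = P.s j i := by
  unfold s
  rw [max_comm, P.T_symm]

theorem s_rec {i j : ℕ} (h : j < i) : P.s i j = P.F (P.T i) i j := by
  unfold s
  have : max i j = i := by omega
  rw [this]
  have h2 : j ≠ i := by omega
  simp [T, h2]

theorem s_lt3 {i j : ℕ} (hi : i < 3) (hj : j < 3) (hij : i ≠ j) : P.s i j = 0 := by
  rcases Nat.lt_or_gt_of_ne hij with h | h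
  · rw [P.s_symm, P.s_rec h]
    simp [F, hj]
  · rw [P.s_rec h]
    simp [F, hi]

theorem s_le {i j a : ℕ} (hi : 3 ≤ i) (hj : j < i) (ha : a = P.p i ∨ a = P.q i) (haj : a ≠ j) :
    P.s i j ≤ 1 + P.s a j := by
  rw [P.s_rec hj]
  have hp := P.hp i hi
  have hq := P.hq i hi
  have hn : ¬ i < 3 := by omega
  have e1 : P.T i (P.p i) j = P.s (P.p i) j := P.T_eq_s hp hj
  have e2 : P.T i (P.q i) j = P.s (P.q i) j := P.T_eq_s hq hj
  unfold F
  rw [if_neg hn, e1, e2]
  rcases ha with ha | ha
  · rw [ha] at haj ⊢
    rw [if_neg haj]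
    by_cases h2 : P.q i = j
    · rw [if_pos h2]
    · rw [if_neg h2]
      exact Nat.add_le_add_left (min_le_left _ _) _
  · rw [ha] at haj ⊢
    by_cases h1 : P.p i = j
    · rw [if_pos h1]
    · rw [if_neg h1, if_neg haj]
      exact Nat.add_le_add_left (min_le_right _ _) _

theorem s_ex {i j : ℕ} (hi : 3 ≤ i) (hj : j < i) :
    ∃ a, (a = P.p i ∨ a = P.q i) ∧ a ≠ j ∧ P.s i j = 1 + P.s a j := by
  rw [P.s_rec hj]
  have hp := P.hp i hi
  have hq := P.hq i hi
  have hn : ¬ i < 3 := by omega
  have e1 : P.T i (P.p i) j = P.s (P.p i) j := P.T_eq_s hp hj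
  have e2 : P.T i (P.q i) j = P.s (P.q i) j := P.T_eq_s hq hj
  unfold F
  rw [if_neg hn, e1, e2]
  split_ifs with h1 h2
  · exact ⟨P.q i, Or.inr rfl, fun h => P.hpq i hi (h1.trans h.symm), rfl⟩
  · exact ⟨P.p i, Or.inl rfl, h1, rfl⟩
  · rcases min_choice (P.s (P.p i) j) (P.s (P.q i) j) with h | h
    · exact ⟨P.p i, Or.inl rfl, h1, by rw [h]⟩
    · exact ⟨P.q i, Or.inr rfl, h2, by rw [h]⟩

theorem par_lt {i a : ℕ} (hi : 3 ≤ i) (ha : a = P.p i ∨ a = P.q i) : a < i := by
  rcases ha with rfl | rfl
  · exact P.hp i hi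
  · exact P.hq i hi

/-- one half of the tropical Pluecker relation. -/
theorem pluecker : ∀ n a b c d : ℕ, a < n → b < n → c < n → d < n →
    a ≠ b → a ≠ c → a ≠ d → b ≠ c → b ≠ d → c ≠ d →
    min (P.s a c + P.s b d) (P.s a d + P.s b c) ≤ P.s a b + P.s c d := by
  intro n
  induction n with
  | zero => intro a b c d ha; omega
  | succ n ih =>
    -- the case where `a` is the youngest
    have key : ∀ a b c d : ℕ, a = n → b < n → c < n → d < n → b ≠ c → b ≠ d → c ≠ d →
        min (P.s a c + P.s b d) (P.s a d + P.s b c) ≤ P.s a b + P.s c d := by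
      intro a b c d ha hb hc hd hbc hbd hcd
      subst ha
      by_cases h3 : a < 3
      · rw [P.s_lt3 (i := a) (j := c) h3 (by omega) (by omega),
          P.s_lt3 (i := b) (j := d) (by omega) (by omega) hbd]
        simp
      · have h3' : 3 ≤ a := by omega
        obtain ⟨a', ha', hne, he⟩ := P.s_ex h3' hb
        have hlt := P.par_lt h3' ha'
        rw [he]
        by_cases e1 : a' = c
        · have := P.s_le h3' hd ha' (by omega)
          subst e1
          rw [P.s_symm b a'] 
          have h5 := min_le_right (P.s a a' + P.s b d) (P.s a d + P.s a' b)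
          omega
        · by_cases e2 : a' = d
          · have := P.s_le h3' hc ha' (by omega)
            subst e2
            rw [P.s_symm b a']
            have h5 := min_le_left (P.s a c + P.s a' b) (P.s a a' + P.s b c)
            rw [P.s_symm c a']
            omega
          · have h1 := ih a' b c d hlt hb hc hd hne e1 e2 hbc hbd hcd
            have h2 := P.s_le h3' hc ha' e1
            have h4 := P.s_le h3' hd ha' e2
            omega
    intro a b c d ha hb hc hd hab hac had hbc hbd hcd
    by_cases h1 : a = n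
    · exact key a b c d h1 (by omega) (by omega) (by omega) hbc hbd hcd
    by_cases h2 : b = n
    · have := key b a d c h2 (by omega) (by omega) (by omega) had hac hcd.symm
      rw [P.s_symm b a, P.s_symm d c] at this
      rw [P.s_symm a b, P.s_symm c d]
      rw [P.s_symm b a, P.s_symm d c]
      have e1 : P.s b d + P.s a c = P.s a c + P.s b d := by ring
      have e2 : P.s b c + P.s a d = P.s a d + P.s b c := by ring
      rw [e1, e2] at this
      exact this
    by_cases h3 : c = n
    · have := key c d a b h3 (by omega) (by omega) (by omega) had.symm hbd.symm hab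
      rw [P.s_symm c a, P.s_symm d b, P.s_symm c b, P.s_symm d a] at this
      have e1 : P.s b c + P.s a d = P.s a d + P.s b c := by ring
      have e2 : P.s c d + P.s a b = P.s a b + P.s c d := by ring
      rw [e1, e2] at this
      exact this
    by_cases h4 : d = n
    · have := key d c b a h4 (by omega) (by omega) (by omega) hbc.symm hac.symm hab.symm
      rw [P.s_symm d b, P.s_symm c a, P.s_symm d a, P.s_symm c b, P.s_symm d c, P.s_symm b a] at this
      have e1 : P.s b d + P.s a c = P.s a c + P.s b d := by ring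
      have e2 : P.s c d + P.s a b = P.s a b + P.s c d := by ring
      rw [e1, e2] at this
      exact this
    exact ih a b c d (by omega) (by omega) (by omega) (by omega) hab hac had hbc hbd hcd

/-- the cost of an optimal pair of disjoint descending paths from `i` to the base. -/
def c (i : ℕ) : ℕ := if i < 3 then 0 else 2 + P.s (P.p i) (P.q i)

theorem c_eq {i : ℕ} (hi : 3 ≤ i) : P.c i = 2 + P.s (P.p i) (P.q i) := by
  unfold c
  rw [if_neg (by omega)]

/-- auxiliary three-point inequality. -/
theorem threept : ∀ n a b B : ℕ, a < n → b < n → B < n → 3 ≤ B → a ≠ b → a ≠ B → b ≠ B →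
    P.s a B + P.s b B ≤ P.s a b + P.c B ∨ P.s a B + 1 ≤ P.s a b ∨ P.s b B + 1 ≤ P.s a b := by
  intro n
  induction n with
  | zero => intro a b c ha; omega
  | succ n ih =>
    have key : ∀ a b B : ℕ, a = n → b < n → B < n → 3 ≤ B → b ≠ B →
      P.s a B + P.s b B ≤ P.s a b + P.c B ∨ P.s a B + 1 ≤ P.s a b ∨ P.s b B + 1 ≤ P.s a b := by
      intro a b B ha hb hB hB3 hbB
      subst ha
      have h3' : 3 ≤ a := by omega
      obtain ⟨a', ha', hne, he⟩ := P.s_ex h3' hb
      have hlt := P.par_lt h3' ha'
      by_cases e1 : a' = B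
      · right; right
        subst e1
        rw [he, P.s_symm b a']; omega
      · have h2 := P.s_le h3' hB ha' e1
        rcases ih a' b B hlt hb hB hB3 hne e1 hbB with h | h | h
        · left; omega
        · right; left; omega
        · right; right; omega
    intro a b B ha hb hB hB3 hab haB hbB
    by_cases h1 : a = n
    · exact key a b B h1 (by omega) (by omega) hB3 hbB
    by_cases h2 : b = n
    · have := key b a B h2 (by omega) (by omega) hB3 haB
      rw [P.s_symm b a] at this
      rcases this with h | h | h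
      · left; omega
      · right; right; exact h
      · right; left; exact h
    by_cases h3 : B = n
    · left
      have hp := P.hp B hB3
      have hq := P.hq B hB3
      have hpq := P.hpq B hB3
      have ha' : a < B := by omega
      have hb' : b < B := by omega
      rw [P.c_eq hB3, P.s_symm a B, P.s_symm b B]
      by_cases x1 : a = P.p B
      · have y1 := P.s_le (a := P.q B) hB3 ha' (Or.inr rfl) (by omega)
        have y2 := P.s_le (a := P.p B) hB3 hb' (Or.inl rfl) (by omega)
        rw [x1] at y1 ⊢
        rw [P.s_symm (P.q B) (P.p B)] at y1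
        omega
      by_cases x2 : a = P.q B
      · have y1 := P.s_le (a := P.p B) hB3 ha' (Or.inl rfl) (by omega)
        have y2 := P.s_le (a := P.q B) hB3 hb' (Or.inr rfl) (by omega)
        rw [x2] at y1 ⊢
        omega
      by_cases x3 : b = P.p B
      · have y1 := P.s_le (a := P.q B) hB3 hb' (Or.inr rfl) (by omega)
        have y2 := P.s_le (a := P.p B) hB3 ha' (Or.inl rfl) (by omega)
        rw [x3] at y1 ⊢
        rw [P.s_symm (P.q B) (P.p B)] at y1
        rw [P.s_symm (P.p B) a] at y2
        omega
      by_cases x4 : b = P.q B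
      · have y1 := P.s_le (a := P.p B) hB3 hb' (Or.inl rfl) (by omega)
        have y2 := P.s_le (a := P.q B) hB3 ha' (Or.inr rfl) (by omega)
        rw [x4] at y1 ⊢
        rw [P.s_symm (P.q B) a] at y2
        omega
      have hpl := P.pluecker B a b (P.p B) (P.q B) ha' hb' hp hq hab x1 x2 x3 x4 hpq
      have y1 := P.s_le (a := P.p B) hB3 ha' (Or.inl rfl) (by omega)
      have y2 := P.s_le (a := P.q B) hB3 ha' (Or.inr rfl) (by omega)
      have y3 := P.s_le (a := P.p B) hB3 hb' (Or.inl rfl) (by omega)
      have y4 := P.s_le (a := P.q B) hB3 hb' (Or.inr rfl) (by omega)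
      rw [P.s_symm (P.p B) a] at y1
      rw [P.s_symm (P.q B) a] at y2
      rw [P.s_symm (P.p B) b] at y3
      rw [P.s_symm (P.q B) b] at y4
      omega
    exact ih a b B (by omega) (by omega) (by omega) hB3 hab haB hbB

/-- for a base index `d`: one of two costs with `d` is not larger. -/
theorem base_le {d : ℕ} (hd : d < 3) : ∀ n a b : ℕ, a < n → b < n → a ≠ b → a ≠ d → b ≠ d →
    P.s a d ≤ P.s a b ∨ P.s b d ≤ P.s a b := by
  intro n
  induction n with
  | zero => intro a b ha; omega
  | succ n ih =>
    have key : ∀ a b : ℕ, a = n → b < n → 3 ≤ a → a ≠ d → b ≠ d →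
        P.s a d ≤ P.s a b ∨ P.s b d ≤ P.s a b := by
      intro a b ha hb h3' had hbd
      subst ha
      obtain ⟨a', ha', hne, he⟩ := P.s_ex h3' hb
      have hlt := P.par_lt h3' ha'
      by_cases e1 : a' = d
      · right
        subst e1
        rw [he, P.s_symm b a']; omega
      · have h2 := P.s_le h3' (j := d) (by omega) ha' e1
        rcases ih a' b hlt hb hne e1 hbd with h | h
        · left; omega
        · right; omega
    intro a b ha hb hab had hbd
    by_cases hlow : a < 3 ∧ b < 3
    · left; rw [P.s_lt3 hlow.1 hd had]; omega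
    by_cases h1 : a = n
    · by_cases h3 : 3 ≤ a
      · exact key a b h1 (by omega) h3 had hbd
      · exact absurd ⟨by omega, by omega⟩ hlow
    by_cases h2 : b = n
    · by_cases h3 : 3 ≤ b
      · have := key b a h2 (by omega) h3 hbd had
        rw [P.s_symm b a] at this
        exact this.symm
      · exact absurd ⟨by omega, by omega⟩ hlow
    exact ih a b (by omega) (by omega) hab had hbd

theorem s_base_le {B d : ℕ} (hB : 3 ≤ B) (hd : d < 3) : P.s B d + 1 ≤ P.c B := by
  have hp := P.hp B hB
  have hq := P.hq B hB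
  have hpq := P.hpq B hB
  rw [P.c_eq hB]
  by_cases h1 : P.p B = d
  · have := P.s_le (j := d) (a := P.q B) hB (by omega) (Or.inr rfl) (by omega)
    rw [h1, P.s_symm d (P.q B)]
    omega
  by_cases h2 : P.q B = d
  · have := P.s_le (j := d) (a := P.p B) hB (by omega) (Or.inl rfl) (by omega)
    rw [h2]
    omega
  have y1 := P.s_le (j := d) (a := P.p B) hB (by omega) (Or.inl rfl) h1
  have y2 := P.s_le (j := d) (a := P.q B) hB (by omega) (Or.inr rfl) h2
  rcases P.base_le hd B (P.p B) (P.q B) hp hq hpq h1 h2 with h | h <;> omega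

/-- **Flow lemma** (pair version). -/
theorem s_le_max {A B : ℕ} (hA : 3 ≤ A) (hAB : A ≠ B) : P.s A B ≤ max (P.c A) (P.c B) := by
  have key : ∀ A B : ℕ, 3 ≤ A → B < A → P.s A B ≤ max (P.c A) (P.c B) := by
    intro A B hA hBA
    by_cases hB : B < 3
    · have := P.s_base_le hA hB
      have h2 := le_max_left (P.c A) (P.c B)
      omega
    have hB3 : 3 ≤ B := by omega
    have hp := P.hp A hA
    have hq := P.hq A hA
    have hpq := P.hpq A hA
    have hc := P.c_eq hA
    have hl := le_max_left (P.c A) (P.c B)
    have hr := le_max_right (P.c A) (P.c B)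
    by_cases h1 : P.p A = B
    · have := P.s_le (j := B) (a := P.q A) hA hBA (Or.inr rfl) (by omega)
      rw [h1, P.s_symm B (P.q A)] at hc
      omega
    by_cases h2 : P.q A = B
    · have := P.s_le (j := B) (a := P.p A) hA hBA (Or.inl rfl) (by omega)
      rw [h2] at hc
      omega
    have y1 := P.s_le (j := B) (a := P.p A) hA hBA (Or.inl rfl) h1
    have y2 := P.s_le (j := B) (a := P.q A) hA hBA (Or.inr rfl) h2
    rcases P.threept A (P.p A) (P.q A) B hp hq hBA hB3 hpq h1 h2 with h | h | h <;> omega
  rcases Nat.lt_or_gt_of_ne hAB with h | h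
  · rw [P.s_symm, max_comm]; exact key B A (by omega) h
  · exact key A B hA h

/-- **Flow lemma**: `c` increases by at most 2. -/
theorem c_le {t : ℕ} (ht : 3 ≤ t) : P.c t ≤ 2 + max (P.c (P.p t)) (P.c (P.q t)) := by
  have hpq := P.hpq t ht
  rw [P.c_eq ht]
  by_cases h1 : 3 ≤ P.p t
  · have := P.s_le_max h1 hpq
    omega
  by_cases h2 : 3 ≤ P.q t
  · have := P.s_le_max h2 hpq.symm
    rw [P.s_symm, max_comm] 
    omega
  · rw [P.s_lt3 (by omega) (by omega) hpq]
    omega

/-- discrete intermediate value: if `c t ≥ m` and `m ≥ 1` then some `u ≤ t` has `c u ∈ {m, m+1}`. -/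
theorem exists_window {m t : ℕ} (hm : 1 ≤ m) (ht : m ≤ P.c t) :
    ∃ u, 3 ≤ u ∧ u ≤ t ∧ (P.c u = m ∨ P.c u = m + 1) := by
  induction t using Nat.strong_induction_on with
  | _ t ih =>
    have h3 : 3 ≤ t := by
      by_contra h
      have : P.c t = 0 := by unfold c; rw [if_pos (by omega)]
      omega
    by_cases hlt : P.c t ≤ m + 1
    · exact ⟨t, h3, le_refl _, by omega⟩
    · have hc := P.c_le h3
      have hp := P.hp t h3
      have hq := P.hq t h3
      have hmax : m ≤ P.c (P.p t) ∨ m ≤ P.c (P.q t) := by omega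
      rcases hmax with h | h
      · obtain ⟨u, h1, h2, h4⟩ := ih _ hp h
        exact ⟨u, h1, by omega, h4⟩
      · obtain ⟨u, h1, h2, h4⟩ := ih _ hq h
        exact ⟨u, h1, by omega, h4⟩

end Par

end Pool.Agent.Cyc27
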