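import Mathlib
import Pool.Agent.Lib_helper27.Cyc.Flow

set_option autoImplicit false

namespace Pool.Agent.Cyc27

open SimpleGraph

/-- A parent system realised inside a graph on the vertices `f 0, ..., f (m-1)`. -/
structure Real {V : Type*} (G : SimpleGraph V) (P : Par) (m : ℕ) (f : ℕ → V) : Prop where
  m3 : 3 ≤ m
  inj : ∀ i j, i < m → j < m → f i = f j → i = j
  a01 : G.Adj (f 0) (f 1)
  a02 : G.Adj (f 0) (f 2)
  a12 : G.Adj (f 1) (f 2)
  adjp : ∀ i, 3 ≤ i → i < m → G.Adj (f i) (f (P.p i))
  adjq : ∀ i, 3 ≤ i → i < m → G.Adj (f i) (f (P.q i))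

namespace Real

variable {V : Type*} {G : SimpleGraph V} {P : Par} {m : ℕ} {f : ℕ → V}

theorem adj3 (R : Real G P m f) {i j : ℕ} (hi : i < 3) (hj : j < 3) (hij : i ≠ j) :
    G.Adj (f i) (f j) := by
  have h01 := R.a01
  have h02 := R.a02
  have h12 := R.a12
  interval_cases i <;> interval_cases j <;> first | exact absurd rfl hij | assumption | (apply SimpleGraph.Adj.symm; assumption)

theorem adj_par (R : Real G P m f) {i a : ℕ} (h3 : 3 ≤ i) (hi : i < m) (ha : a = P.p i ∨ a = P.q i) :
    G.Adj (f i) (f a) := by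
  rcases ha with rfl | rfl
  · exact R.adjp i h3 hi
  · exact R.adjq i h3 hi

theorem exists_path (R : Real G P m f) (e : ℕ) (he : e = 1 ∨ e = 2) : ∀ n, 3 ≤ n → n ≤ m →
    ∀ i j, i < n → j < n → i ≠ j →
    ∃ w : G.Walk (f i) (f j), w.IsPath ∧ w.length = P.s i j + e ∧ ∀ v ∈ w.support, ∃ l < n, v = f l := by
  intro n hn
  induction n, hn using Nat.le_induction with
  | base =>
    intro hm i j hi hj hij
    rw [P.s_lt3 hi hj hij]
    rcases he with rfl | rfl
    · refine ⟨(R.adj3 hi hj hij).toWalk, ?_, ?_, ?_⟩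
      · simp [SimpleGraph.Adj.toWalk, Walk.cons_isPath_iff]
        intro h; exact hij (R.inj i j (by omega) (by omega) h)
      · simp
      · intro v hv
        simp [SimpleGraph.Adj.toWalk] at hv
        rcases hv with rfl | rfl
        · exact ⟨i, hi, rfl⟩
        · exact ⟨j, hj, rfl⟩
    · obtain ⟨k, hk, hki, hkj⟩ : ∃ k < 3, k ≠ i ∧ k ≠ j := by
        refine ⟨3 - i - j, by omega, by omega, by omega⟩
      have h1 : f i ≠ f k := fun h => hki (R.inj i k (by omega) (by omega) h).symm
      have h2 : f k ≠ f j := fun h => hkj (R.inj k j (by omega) (by omega) h)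
      have h3 : f i ≠ f j := fun h => hij (R.inj i j (by omega) (by omega) h)
      refine ⟨Walk.cons (R.adj3 hi hk hki.symm) (R.adj3 hk hj hkj).toWalk, ?_, ?_, ?_⟩
      · simp [SimpleGraph.Adj.toWalk, Walk.cons_isPath_iff, h1, h2, h3]
      · simp
      · intro v hv
        simp [SimpleGraph.Adj.toWalk] at hv
        rcases hv with rfl | rfl | rfl
        · exact ⟨i, hi, rfl⟩
        · exact ⟨k, hk, rfl⟩
        · exact ⟨j, hj, rfl⟩
  | succ n hn ih =>
    intro hm
    have ih := ih (by omega)
    have key : ∀ i j, i = n → j < n →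
        ∃ w : G.Walk (f i) (f j), w.IsPath ∧ w.length = P.s i j + e ∧
          ∀ v ∈ w.support, ∃ l < n + 1, v = f l := by
      intro i j hi hj
      subst hi
      obtain ⟨a, ha, haj, hs⟩ := P.s_ex hn hj
      have hlt := P.par_lt hn ha
      obtain ⟨w, hw1, hw2, hw3⟩ := ih a j hlt hj haj
      refine ⟨Walk.cons (R.adj_par hn (by omega) ha) w, ?_, ?_, ?_⟩
      · rw [Walk.cons_isPath_iff]
        refine ⟨hw1, ?_⟩
        intro hmem
        obtain ⟨l, hl, hfl⟩ := hw3 _ hmem
        have := R.inj i l (by omega) (by omega) hfl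
        omega
      · rw [Walk.length_cons, hw2, hs]; omega
      · intro v hv
        rw [Walk.support_cons, List.mem_cons] at hv
        rcases hv with rfl | hv
        · exact ⟨i, by omega, rfl⟩
        · obtain ⟨l, hl, hfl⟩ := hw3 _ hv
          exact ⟨l, by omega, hfl⟩
    intro i j hi hj hij
    by_cases h1 : i = n
    · exact key i j h1 (by omega)
    by_cases h2 : j = n
    · obtain ⟨w, hw1, hw2, hw3⟩ := key j i h2 (by omega)
      refine ⟨w.reverse, hw1.reverse, ?_, ?_⟩
      · rw [Walk.length_reverse, hw2, P.s_symm]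
      · intro v hv
        rw [Walk.support_reverse, List.mem_reverse] at hv
        exact hw3 v hv
    · obtain ⟨w, hw1, hw2, hw3⟩ := ih i j (by omega) (by omega) hij
      refine ⟨w, hw1, hw2, ?_⟩
      intro v hv
      obtain ⟨l, hl, hfl⟩ := hw3 _ hv
      exact ⟨l, by omega, hfl⟩

/-- closing a path between the two parents of `t` into a cycle. -/
theorem exists_cycle (R : Real G P m f) {t e : ℕ} (ht : 3 ≤ t) (htm : t < m) (he : e = 1 ∨ e = 2) :
    ∃ (u : V) (w : G.Walk u u), w.IsCycle ∧ w.length = P.c t + e := by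
  obtain ⟨w, hw1, hw2, hw3⟩ := R.exists_path e he t ht (by omega) (P.p t) (P.q t) (P.hp t ht)
    (P.hq t ht) (P.hpq t ht)
  have hnot : f t ∉ w.support := by
    intro hmem
    obtain ⟨l, hl, hfl⟩ := hw3 _ hmem
    have := R.inj t l (by omega) (by omega) hfl
    omega
  have hadp := R.adjp t ht htm
  have hadq := R.adjq t ht htm
  refine ⟨f t, Walk.cons hadp (w.concat hadq.symm), ?_, ?_⟩
  · rw [Walk.cons_isCycle_iff]
    refine ⟨?_, ?_⟩
    · rw [Walk.concat_isPath_iff]
      exact ⟨hw1, hnot⟩
    · rw [Walk.edges_concat, List.concat_eq_append, List.mem_append, List.mem_singleton]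
      rintro (h | h)
      · exact hnot (Walk.fst_mem_support_of_mem_edges _ h)
      · rw [Sym2.eq_iff] at h
        rcases h with ⟨h1, h2⟩ | ⟨h1, h2⟩
        · exact hadq.ne h1
        · have := R.inj _ _ (by have := P.hp t ht; omega) (by have := P.hq t ht; omega) h2
          exact P.hpq t ht this
  · rw [Walk.length_cons, Walk.length_concat, hw2, P.c_eq ht]; omega

/-- If `c t ≥ 2k-2` for some `t`, then all even cycles `4, ..., 2k` exist. -/
theorem even_cycles (R : Real G P m f) {k t : ℕ} (htm : t < m) (hc : 2 * k - 2 ≤ P.c t)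
    {j : ℕ} (hj2 : 2 ≤ j) (hjk : j ≤ k) :
    ∃ (u : V) (w : G.Walk u u), w.IsCycle ∧ w.length = 2 * j := by
  obtain ⟨u, h3, hut, hu⟩ := P.exists_window (m := 2 * j - 2) (t := t) (by omega) (by omega)
  rcases hu with hu | hu
  · obtain ⟨x, w, hw, hl⟩ := R.exists_cycle h3 (by omega) (e := 2) (Or.inr rfl)
    exact ⟨x, w, hw, by omega⟩
  · obtain ⟨x, w, hw, hl⟩ := R.exists_cycle h3 (by omega) (e := 1) (Or.inl rfl)
    exact ⟨x, w, hw, by omega⟩

theorem exists_desc (R : Real G P m f) : ∀ n, 3 ≤ n → n ≤ m →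
    ∀ i j, i < n → j < n → i ≠ j →
    ∃ d < 3, ∃ w : G.Walk (f i) (f d), w.length ≤ P.s i j ∧ ∀ v ∈ w.support, ∃ l < n, v = f l := by
  intro n hn
  induction n, hn using Nat.le_induction with
  | base =>
    intro hm i j hi hj hij
    refine ⟨i, hi, Walk.nil, by simp, ?_⟩
    intro v hv
    simp at hv
    exact ⟨i, hi, hv⟩
  | succ n hn ih =>
    intro hm i j hi hj hij
    have ih := ih (by omega)
    by_cases h1 : i = n
    · subst h1
      obtain ⟨a, ha, haj, hs⟩ := P.s_ex hn (show j < i by omega)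
      have hlt := P.par_lt hn ha
      obtain ⟨d, hd, w, hw2, hw3⟩ := ih a j hlt (by omega) haj
      refine ⟨d, hd, Walk.cons (R.adj_par hn (by omega) ha) w, ?_, ?_⟩
      · rw [Walk.length_cons]; omega
      · intro v hv
        rw [Walk.support_cons, List.mem_cons] at hv
        rcases hv with rfl | hv
        · exact ⟨i, by omega, rfl⟩
        · obtain ⟨l, hl, hfl⟩ := hw3 _ hv
          exact ⟨l, by omega, hfl⟩
    by_cases h2 : j = n
    · subst h2
      obtain ⟨a, ha, haj, hs⟩ := P.s_ex hn (show i < j by omega)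
      have hlt := P.par_lt hn ha
      obtain ⟨d, hd, w, hw2, hw3⟩ := ih i a (by omega) hlt haj.symm
      refine ⟨d, hd, w, ?_, ?_⟩
      · rw [P.s_symm i j, hs, P.s_symm a i]; omega
      · intro v hv
        obtain ⟨l, hl, hfl⟩ := hw3 _ hv
        exact ⟨l, by omega, hfl⟩
    · obtain ⟨d, hd, w, hw2, hw3⟩ := ih i j (by omega) (by omega) hij
      refine ⟨d, hd, w, hw2, ?_⟩
      intro v hv
      obtain ⟨l, hl, hfl⟩ := hw3 _ hv
      exact ⟨l, by omega, hfl⟩

/-- For every vertex `x`, one of two costs avoids `x`. -/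
theorem exists_avoid (R : Real G P m f) (x : V) : ∀ n, 3 ≤ n → n ≤ m →
    ∀ i j, i < n → j < n → i ≠ j →
    (∃ d < 3, ∃ w : G.Walk (f i) (f d), w.length ≤ P.s i j ∧ x ∉ w.support) ∨
    (∃ d < 3, ∃ w : G.Walk (f j) (f d), w.length ≤ P.s i j ∧ x ∉ w.support) := by
  intro n hn
  induction n, hn using Nat.le_induction with
  | base =>
    intro hm i j hi hj hij
    by_cases hx : x = f i
    · right
      refine ⟨j, hj, Walk.nil, by simp, ?_⟩
      simp
      intro h
      exact hij (R.inj i j (by omega) (by omega) (hx.symm.trans h))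
    · left
      refine ⟨i, hi, Walk.nil, by simp, ?_⟩
      simpa using hx
  | succ n hn ih =>
    intro hm
    have ih := ih (by omega)
    have key : ∀ i j, i = n → j < n →
      (∃ d < 3, ∃ w : G.Walk (f i) (f d), w.length ≤ P.s i j ∧ x ∉ w.support) ∨
      (∃ d < 3, ∃ w : G.Walk (f j) (f d), w.length ≤ P.s i j ∧ x ∉ w.support) := by
      intro i j hi hj
      subst hi
      obtain ⟨a, ha, haj, hs⟩ := P.s_ex hn hj
      have hlt := P.par_lt hn ha
      by_cases hx : x = f i
      · right
        obtain ⟨d, hd, w, hw2, hw3⟩ := R.exists_desc i hn (by omega) j a hj hlt haj.symm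
        refine ⟨d, hd, w, ?_, ?_⟩
        · rw [hs, P.s_symm a j]; omega
        · intro hmem
          obtain ⟨l, hl, hfl⟩ := hw3 _ hmem
          have := R.inj i l (by omega) (by omega) (hx.symm.trans hfl)
          omega
      · rcases ih a j hlt hj haj with ⟨d, hd, w, hw2, hw3⟩ | ⟨d, hd, w, hw2, hw3⟩
        · left
          refine ⟨d, hd, Walk.cons (R.adj_par hn (by omega) ha) w, ?_, ?_⟩
          · rw [Walk.length_cons]; omega
          · rw [Walk.support_cons, List.mem_cons]
            rintro (h | h)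
            · exact hx h
            · exact hw3 h
        · right
          exact ⟨d, hd, w, by omega, hw3⟩
    intro i j hi hj hij
    by_cases h1 : i = n
    · exact key i j h1 (by omega)
    by_cases h2 : j = n
    · have := key j i h2 (by omega)
      rw [P.s_symm j i] at this
      exact this.symm
    · exact ih i j (by omega) (by omega) hij

/-- distance to the base avoiding `x`. -/
theorem dist_base (R : Real G P m f) (x : V) {k t : ℕ} (htm : t < m) (hx : f t ≠ x)
    (hk : 2 ≤ k) (hc : 3 ≤ t → P.c t ≤ 2 * k - 3) :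
    ∃ d < 3, ∃ w : G.Walk (f t) (f d), w.length ≤ 2 * k - 4 ∧ x ∉ w.support := by
  by_cases h3 : 3 ≤ t
  · have hp := P.hp t h3
    have hq := P.hq t h3
    have hc := hc h3
    have hce := P.c_eq h3
    rcases R.exists_avoid x t h3 (by omega) (P.p t) (P.q t) hp hq (P.hpq t h3) with
      ⟨d, hd, w, hw2, hw3⟩ | ⟨d, hd, w, hw2, hw3⟩
    · refine ⟨d, hd, Walk.cons (R.adjp t h3 htm) w, ?_, ?_⟩
      · rw [Walk.length_cons]; omega
      · rw [Walk.support_cons, List.mem_cons]
        rintro (h | h)
        · exact hx h.symm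
        · exact hw3 h
    · refine ⟨d, hd, Walk.cons (R.adjq t h3 htm) w, ?_, ?_⟩
      · rw [Walk.length_cons]; omega
      · rw [Walk.support_cons, List.mem_cons]
        rintro (h | h)
        · exact hx h.symm
        · exact hw3 h
  · refine ⟨t, by omega, Walk.nil, by simp, ?_⟩
    simpa using hx.symm

end Real

end Pool.Agent.Cyc27
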