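import Mathlib
import Pool.Agent.Lib_helper27.Cyc.Paths

set_option autoImplicit false

namespace Pool.Agent.Cyc27

open SimpleGraph Classical

variable {V : Type*} (G : SimpleGraph V)

/-- number of neighbours of `v` in `S`. -/
noncomputable def dg (S : Finset V) (v : V) : ℕ := (S.filter (fun w => G.Adj v w)).card

/-- twice the number of edges inside `S`. -/
noncomputable def D (S : Finset V) : ℕ := ∑ v ∈ S, dg G S v

theorem dg_insert {S : Finset V} {v u : V} (hv : v ∉ S) :
    dg G (insert v S) u = dg G S u + if G.Adj u v then 1 else 0 := by
  unfold dg
  rw [Finset.filter_insert]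
  split_ifs with h
  · rw [Finset.card_insert_of_notMem]
    intro hmem
    exact hv (Finset.mem_filter.1 hmem).1
  · simp

theorem D_insert {S : Finset V} {v : V} (hv : v ∉ S) :
    D G (insert v S) = D G S + 2 * dg G S v := by
  unfold D
  rw [Finset.sum_insert hv, dg_insert G hv]
  have : ∑ x ∈ S, dg G (insert v S) x = ∑ x ∈ S, dg G S x + dg G S v := by
    rw [Finset.sum_congr rfl (fun u _ => dg_insert G (u := u) hv), Finset.sum_add_distrib]
    congr 1
    unfold dg
    rw [Finset.card_filter]
    refine Finset.sum_congr rfl (fun u _ => ?_)
    by_cases h : G.Adj u v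
    · simp [h, h.symm]
    · have h' : ¬ G.Adj v u := fun h2 => h h2.symm
      simp [h, h']
  rw [this]
  simp
  ring

theorem D_erase {S : Finset V} {v : V} (hv : v ∈ S) :
    D G S = D G (S.erase v) + 2 * dg G S v := by
  have h := D_insert G (S := S.erase v) (v := v) (Finset.notMem_erase v S)
  rw [Finset.insert_erase hv] at h
  rw [h]
  congr 2
  have h2 := dg_insert G (S := S.erase v) (v := v) (u := v) (Finset.notMem_erase v S)
  rw [Finset.insert_erase hv] at h2
  simpa using h2.symm

theorem dg_le_card {S : Finset V} {v : V} : dg G S v ≤ S.card :=
  Finset.card_filter_le _ _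

theorem D_one {S : Finset V} (h : S.card = 1) : D G S = 0 := by
  obtain ⟨a, rfl⟩ := Finset.card_eq_one.1 h
  unfold D dg
  rw [Finset.sum_singleton, Finset.filter_singleton]
  simp

/-- hypothesis: each nonempty proper subset has a vertex with at most two neighbours in it. -/
def Deg2 [Fintype V] : Prop := ∀ S : Finset V, S.Nonempty → S ≠ Finset.univ → ∃ v ∈ S, dg G S v < 3

variable [Fintype V]

theorem erase_ne_univ {S : Finset V} {v : V} : S.erase v ≠ Finset.univ := by
  intro h
  have := Finset.notMem_erase v S
  rw [h] at this
  exact this (Finset.mem_univ _)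

theorem D_upper (hG : Deg2 G) : ∀ n, 2 ≤ n → ∀ S : Finset V, S.card = n → S ≠ Finset.univ →
    D G S + 6 ≤ 4 * n := by
  intro n hn
  induction n, hn using Nat.le_induction with
  | base =>
    intro S hS hne
    obtain ⟨v, hv, hd⟩ := hG S (Finset.card_pos.1 (by omega)) hne
    have hc := Finset.card_erase_of_mem hv
    rw [D_erase G hv, D_one G (by omega)]
    have : dg G S v ≤ 1 := by
      have h2 := dg_insert G (S := S.erase v) (v := v) (u := v) (Finset.notMem_erase v S)
      rw [Finset.insert_erase hv] at h2
      have h3 := dg_le_card G (S := S.erase v) (v := v)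
      simp at h2
      omega
    omega
  | succ n hn ih =>
    intro S hS hne
    obtain ⟨v, hv, hd⟩ := hG S (Finset.card_pos.1 (by omega)) hne
    have hc := Finset.card_erase_of_mem hv
    rw [D_erase G hv]
    have := ih (S.erase v) (by omega) erase_ne_univ
    omega

/-- tight sets are realised by parent systems. -/
theorem exists_real (hG : Deg2 G) : ∀ n, 3 ≤ n → ∀ S : Finset V, S.card = n → S ≠ Finset.univ →
    D G S + 6 = 4 * n → ∃ (P : Par) (f : ℕ → V), Real G P n f ∧ (∀ i < n, f i ∈ S) := by
  intro n hn
  induction n, hn using Nat.le_induction with
  | base =>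
    intro S hS hne hD
    obtain ⟨a, b, c, hab, hac, hbc, rfl⟩ := Finset.card_eq_three.1 hS
    have hb : a ∉ ({b, c} : Finset V) := by simp [hab, hac]
    have hb2 : b ∉ ({c} : Finset V) := by simp [hbc]
    have h1 := D_insert G hb
    have h2 := D_insert G hb2
    have h3 := D_one G (S := {c}) (by simp)
    have h4 := dg_le_card G (S := {c}) (v := b)
    have h5 := dg_le_card G (S := {b, c}) (v := a)
    have h6 : ({b, c} : Finset V).card = 2 := Finset.card_pair hbc
    have h7 : ({c} : Finset V).card = 1 := Finset.card_singleton c
    have h8 : dg G {c} b = 1 := by omega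
    have h9 : dg G {b, c} a = 2 := by omega
    have e1 : G.Adj b c := by
      by_contra h
      unfold dg at h8
      rw [Finset.filter_singleton, if_neg h] at h8
      simp at h8
    have e2 : ({b, c} : Finset V).filter (fun w => G.Adj a w) = {b, c} := by
      apply Finset.eq_of_subset_of_card_le (Finset.filter_subset _ _)
      unfold dg at h9
      omega
    have e3 : G.Adj a b := by
      have : b ∈ ({b, c} : Finset V).filter (fun w => G.Adj a w) := by rw [e2]; simp
      exact (Finset.mem_filter.1 this).2
    have e4 : G.Adj a c := by
      have : c ∈ ({b, c} : Finset V).filter (fun w => G.Adj a w) := by rw [e2]; simp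
      exact (Finset.mem_filter.1 this).2
    refine ⟨⟨fun _ => 0, fun _ => 1, fun i hi => by omega, fun i hi => by omega,
      fun i hi => by omega⟩, fun i => if i = 0 then a else if i = 1 then b else c, ?_, ?_⟩
    · refine ⟨le_refl _, ?_, ?_, ?_, ?_, fun i h1 h2 => by omega, fun i h1 h2 => by omega⟩
      · intro i j hi hj hij
        have hab' := hab.symm
        have hac' := hac.symm
        have hbc' := hbc.symm
        interval_cases i <;> interval_cases j <;> simp_all
      · simpa using e3
      · simpa using e4
      · simpa using e1
    · intro i hi
      interval_cases i <;> simp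
  | succ n hn ih =>
    intro S hS hne hD
    obtain ⟨v, hv, hd⟩ := hG S (Finset.card_pos.1 (by omega)) hne
    have hc := Finset.card_erase_of_mem hv
    have hD2 := D_erase G hv
    have hup := D_upper G hG n (by omega) (S.erase v) (by omega) erase_ne_univ
    obtain ⟨P, f, R, hf⟩ := ih (S.erase v) (by omega) erase_ne_univ (by omega)
    have hdv : dg G (S.erase v) v = 2 := by
      have h2 := dg_insert G (S := S.erase v) (v := v) (u := v) (Finset.notMem_erase v S)
      rw [Finset.insert_erase hv] at h2
      simp at h2
      omega
    have himg : (Finset.range n).image f = S.erase v := by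
      apply Finset.eq_of_subset_of_card_le
      · intro x hx
        obtain ⟨i, hi, rfl⟩ := Finset.mem_image.1 hx
        exact hf i (Finset.mem_range.1 hi)
      · rw [Finset.card_image_of_injOn, Finset.card_range]
        · omega
        · intro i hi j hj hij
          exact R.inj i j (by simpa using hi) (by simpa using hj) hij
    obtain ⟨y, z, hyz, hyz2⟩ := Finset.card_eq_two.1 hdv
    have hy : y ∈ (S.erase v).filter (fun w => G.Adj v w) := by rw [hyz2]; simp
    have hz : z ∈ (S.erase v).filter (fun w => G.Adj v w) := by rw [hyz2]; simp
    rw [Finset.mem_filter] at hy hz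
    obtain ⟨hy1, hy2⟩ := hy
    obtain ⟨hz1, hz2⟩ := hz
    rw [← himg, Finset.mem_image] at hy1 hz1
    obtain ⟨i, hi, rfl⟩ := hy1
    obtain ⟨j, hj, rfl⟩ := hz1
    rw [Finset.mem_range] at hi hj
    have hij : i ≠ j := fun h => hyz (by rw [h])
    refine ⟨⟨Function.update P.p n i, Function.update P.q n j, ?_, ?_, ?_⟩, Function.update f n v, ?_, ?_⟩
    · intro l hl
      by_cases h : l = n
      · subst h; simpa using hi
      · rw [Function.update_of_ne h]; exact P.hp l hl
    · intro l hl
      by_cases h : l = n
      · subst h; simpa using hj
      · rw [Function.update_of_ne h]; exact P.hq l hl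
    · intro l hl
      by_cases h : l = n
      · subst h; simpa using hij
      · rw [Function.update_of_ne h, Function.update_of_ne h]; exact P.hpq l hl
    · refine ⟨by omega, ?_, ?_, ?_, ?_, ?_, ?_⟩
      · intro a b ha hb hab
        by_cases h1 : a = n
        · by_cases h2 : b = n
          · omega
          · rw [h1, Function.update_self, Function.update_of_ne h2] at hab
            exfalso
            have := hf b (by omega)
            rw [← hab] at this
            exact Finset.notMem_erase v S this
        · by_cases h2 : b = n
          · rw [h2, Function.update_self, Function.update_of_ne h1] at hab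
            exfalso
            have := hf a (by omega)
            rw [hab] at this
            exact Finset.notMem_erase v S this
          · rw [Function.update_of_ne h1, Function.update_of_ne h2] at hab
            exact R.inj a b (by omega) (by omega) hab
      · rw [Function.update_of_ne (by omega), Function.update_of_ne (by omega)]; exact R.a01
      · rw [Function.update_of_ne (by omega), Function.update_of_ne (by omega)]; exact R.a02
      · rw [Function.update_of_ne (by omega), Function.update_of_ne (by omega)]; exact R.a12
      · intro l hl hln
        by_cases h : l = n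
        · subst h
          simp only [Function.update_self]
          rw [Function.update_of_ne (by omega)]
          exact hy2
        · have := P.hp l hl
          simp only [Function.update_of_ne h]
          rw [Function.update_of_ne (by omega)]
          exact R.adjp l hl (by omega)
      · intro l hl hln
        by_cases h : l = n
        · subst h
          simp only [Function.update_self]
          rw [Function.update_of_ne (by omega)]
          exact hz2
        · have := P.hq l hl
          simp only [Function.update_of_ne h]
          rw [Function.update_of_ne (by omega)]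
          exact R.adjq l hl (by omega)
    · intro l hl
      by_cases h : l = n
      · subst h; rw [Function.update_self]; exact hv
      · rw [Function.update_of_ne h]
        exact Finset.mem_of_mem_erase (hf l (by omega))

theorem D_univ : D G Finset.univ = 2 * G.edgeSet.ncard := by
  have h := G.sum_degrees_eq_twice_card_edges
  rw [show G.edgeSet.ncard = G.edgeFinset.card by
    rw [← SimpleGraph.coe_edgeFinset, Set.ncard_coe_finset], ← h]
  unfold D
  refine Finset.sum_congr rfl (fun v _ => ?_)
  unfold dg
  rw [← SimpleGraph.card_neighborFinset_eq_degree]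
  congr 1
  ext w
  simp

/-- a critical graph on at least 4 vertices is a parent system plus one vertex of degree 3. -/
theorem exists_decomp (hG : Deg2 G) (hE : G.edgeSet.ncard = 2 * Fintype.card V - 2)
    (hn : 4 ≤ Fintype.card V) :
    ∃ (v : V) (P : Par) (f : ℕ → V), Real G P (Fintype.card V - 1) f ∧
      (∀ i < Fintype.card V - 1, f i ≠ v) ∧ (∀ x, x ≠ v → ∃ i < Fintype.card V - 1, f i = x) ∧
      dg G Finset.univ v = 3 := by
  have hU := D_univ G
  rw [hE] at hU
  have hex : ∃ v : V, dg G Finset.univ v ≤ 3 := by
    by_contra hcon
    push Not at hcon
    have : ∑ v : V, 4 ≤ D G Finset.univ := Finset.sum_le_sum (fun v _ => hcon v)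
    simp at this
    omega
  obtain ⟨v, hv⟩ := hex
  have hc : (Finset.univ.erase v).card = Fintype.card V - 1 := by
    rw [Finset.card_erase_of_mem (Finset.mem_univ v), Finset.card_univ]
  have he := D_erase G (Finset.mem_univ v)
  have hup := D_upper G hG (Fintype.card V - 1) (by omega) (Finset.univ.erase v) hc erase_ne_univ
  obtain ⟨P, f, R, hf⟩ := exists_real G hG (Fintype.card V - 1) (by omega) (Finset.univ.erase v)
    hc erase_ne_univ (by omega)
  refine ⟨v, P, f, R, fun i hi => Finset.ne_of_mem_erase (hf i hi), ?_, by omega⟩
  have himg : (Finset.range (Fintype.card V - 1)).image f = Finset.univ.erase v := by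
    apply Finset.eq_of_subset_of_card_le
    · intro x hx
      obtain ⟨i, hi, rfl⟩ := Finset.mem_image.1 hx
      exact hf i (Finset.mem_range.1 hi)
    · rw [Finset.card_image_of_injOn, Finset.card_range]
      · omega
      · intro i hi j hj hij
        exact R.inj i j (by simpa using hi) (by simpa using hj) hij
  intro x hx
  have : x ∈ (Finset.range (Fintype.card V - 1)).image f := by rw [himg]; simp [hx]
  obtain ⟨i, hi, rfl⟩ := Finset.mem_image.1 this
  exact ⟨i, Finset.mem_range.1 hi, rfl⟩

end Pool.Agent.Cyc27
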