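import Mathlib
import Pool.Agent.Lib_helper27.Cyc.Order

set_option autoImplicit false

namespace Pool.Agent.Cyc27

open SimpleGraph Classical

variable {V : Type*} [Fintype V] (G : SimpleGraph V)

/-- A critical graph either has all even cycles `4, 6, ..., 2k`, or after deleting any vertex `x`
any two vertices are joined by a walk of length at most `4k-6`. -/
theorem even_or_dist (hG : Deg2 G) (hE : G.edgeSet.ncard = 2 * Fintype.card V - 2)
    (hn : 4 ≤ Fintype.card V) {k : ℕ} (hk : 2 ≤ k) :
    (∀ j, 2 ≤ j → j ≤ k → ∃ (u : V) (w : G.Walk u u), w.IsCycle ∧ w.length = 2 * j) ∨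
    (∀ x a b : V, a ≠ x → b ≠ x → ∃ w : G.Walk a b, w.length ≤ 4 * k - 6 ∧ x ∉ w.support) := by
  obtain ⟨v, P, f, R, hfv, hsurj, hdeg⟩ := exists_decomp G hG hE hn
  by_cases hc : ∃ t < Fintype.card V - 1, 2 * k - 2 ≤ P.c t
  · left
    obtain ⟨t, ht, hct⟩ := hc
    intro j h2 hj
    exact R.even_cycles ht hct h2 hj
  right
  push Not at hc
  -- walks to the base
  have hbase : ∀ x a : V, a ≠ x → a ≠ v → ∃ d < 3, ∃ w : G.Walk a (f d), w.length ≤ 2 * k - 4 ∧
      x ∉ w.support := by
    intro x a hax hav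
    obtain ⟨t, ht, rfl⟩ := hsurj a hav
    exact R.dist_base x ht hax hk (fun _ => by have := hc t ht; omega)
  have hbase2 : ∀ x : V, v ≠ x → ∃ d < 3, ∃ w : G.Walk v (f d), w.length ≤ 2 * k - 3 ∧
      x ∉ w.support := by
    intro x hvx
    have : ∃ y ∈ (Finset.univ.filter (fun w => G.Adj v w)), y ≠ x := by
      by_contra hcon
      push Not at hcon
      have : (Finset.univ.filter (fun w => G.Adj v w)) ⊆ {x} := by
        intro y hy
        rw [Finset.mem_singleton]
        exact hcon y hy
      have h1 := Finset.card_le_card this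
      unfold dg at hdeg
      rw [hdeg] at h1
      simp at h1
    obtain ⟨y, hy, hyx⟩ := this
    have hadj : G.Adj v y := (Finset.mem_filter.1 hy).2
    obtain ⟨d, hd, w, hw, hw2⟩ := hbase x y hyx hadj.ne'
    refine ⟨d, hd, Walk.cons hadj w, ?_, ?_⟩
    · rw [Walk.length_cons]; omega
    · rw [Walk.support_cons, List.mem_cons]
      rintro (h | h)
      · exact hvx h.symm
      · exact hw2 h
  have hjoin : ∀ (x a b : V) (n₁ n₂ : ℕ), (∃ d < 3, ∃ w : G.Walk a (f d), w.length ≤ n₁ ∧
      x ∉ w.support) → (∃ d < 3, ∃ w : G.Walk b (f d), w.length ≤ n₂ ∧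
      x ∉ w.support) → ∃ w : G.Walk a b, w.length ≤ n₁ + n₂ + 1 ∧ x ∉ w.support := by
    rintro x a b n₁ n₂ ⟨d, hd, w, hw, hw2⟩ ⟨d', hd', w', hw', hw2'⟩
    by_cases hdd : d = d'
    · subst hdd
      refine ⟨w.append w'.reverse, ?_, ?_⟩
      · rw [Walk.length_append, Walk.length_reverse]; omega
      · rw [Walk.mem_support_append_iff, Walk.support_reverse, List.mem_reverse]
        rintro (h | h)
        · exact hw2 h
        · exact hw2' h
    · have hadj := R.adj3 hd hd' hdd
      refine ⟨w.append (Walk.cons hadj w'.reverse), ?_, ?_⟩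
      · rw [Walk.length_append, Walk.length_cons, Walk.length_reverse]; omega
      · rw [Walk.mem_support_append_iff, Walk.support_cons, List.mem_cons, Walk.support_reverse,
          List.mem_reverse]
        rintro (h | h | h)
        · exact hw2 h
        · exact hw2 (h ▸ w.end_mem_support)
        · exact hw2' h
  intro x a b hax hbx
  by_cases hab : a = b
  · subst hab
    exact ⟨Walk.nil, by simp, by simpa using hax.symm⟩
  by_cases ha : a = v
  · subst ha
    obtain ⟨w, hw, hw2⟩ := hjoin x a b _ _ (hbase2 x hax) (hbase x b hbx (Ne.symm hab))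
    exact ⟨w, by omega, hw2⟩
  by_cases hb : b = v
  · subst hb
    obtain ⟨w, hw, hw2⟩ := hjoin x a b _ _ (hbase x a hax hab) (hbase2 x hbx)
    exact ⟨w, by omega, hw2⟩
  · obtain ⟨w, hw, hw2⟩ := hjoin x a b _ _ (hbase x a hax ha) (hbase x b hbx hb)
    exact ⟨w, by omega, hw2⟩

end Pool.Agent.Cyc27
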